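import Mathlib

section

set_option autoImplicit false

open Set Filter Topology Function Cardinal

namespace Pool.Agent.MP_a8721e_gt

theorem mk_closure_lt {G : Type} [AddCommGroup G] (h2 : ∀ x : G, x + x = 0) (S : Set G)
    (hS : #S < 𝔠) : #(AddSubgroup.closure S) < 𝔠 := by
  have hneg : ∀ x : G, -x = x := fun x => neg_eq_of_add_eq_zero_left (h2 x)
  have hsub : ((AddSubgroup.closure S : AddSubgroup G) : Set G) ⊆
      range (fun l : List S => (l.map Subtype.val).sum) := by
    intro x hx
    induction hx using AddSubgroup.closure_induction with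
    | mem x hx => exact ⟨[⟨x, hx⟩], by simp⟩
    | zero => exact ⟨[], by simp⟩
    | add x y _ _ hx hy =>
      obtain ⟨l, rfl⟩ := hx
      obtain ⟨m, rfl⟩ := hy
      exact ⟨l ++ m, by simp⟩
    | neg x _ hx => rw [hneg]; exact hx
  calc #(AddSubgroup.closure S) ≤ #(range (fun l : List S => (l.map Subtype.val).sum)) :=
        mk_le_mk_of_subset hsub
    _ ≤ #(List S) := mk_range_le
    _ ≤ max ℵ₀ #S := mk_list_le_max _
    _ < 𝔠 := max_lt aleph0_lt_continuum hS

theorem exists_rec_seq {ι V : Type} [LinearOrder ι] [WellFoundedLT ι]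
    (Q : ι → Set V → V → Prop) (ok : Set V → Prop)
    (hok : ∀ (i : ι) (s : Iio i → V), ok (range s))
    (hQ : ∀ i W, ok W → ∃ v, Q i W v) :
    ∃ s : ι → V, ∀ i, Q i (s '' Iio i) (s i) := by
  classical
  let F : (i : ι) → ((j : ι) → j < i → V) → V := fun i r =>
    Classical.choose (hQ i (range (fun j : Iio i => r j.1 j.2)) (hok i _))
  let s : ι → V := (wellFounded_lt (α := ι)).fix F
  refine ⟨s, fun i => ?_⟩
  have h1 : s i = F i (fun j _ => s j) := (wellFounded_lt (α := ι)).fix_eq F i
  have h2 : s '' Iio i = range (fun j : Iio i => s j.1) := image_eq_range _ _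
  rw [h1, h2]
  exact Classical.choose_spec (hQ i (range (fun j : Iio i => s j.1)) (hok i _))

theorem exists_killing_subgroup {G : Type} [AddCommGroup G] (h2 : ∀ x : G, x + x = 0)
    (κ : Type) (hκ : #κ ≤ 𝔠) (E : Set G) (hE : #E < 𝔠) (P : κ → G → G → Prop)
    (hP : ∀ i, ∀ W : Set G, #W < 𝔠 → ∃ x y, P i x y ∧ x ∉ W ∧ y ∉ W ∧ x + y ∉ W) [Nonempty κ] :
    ∃ H : AddSubgroup G, E ⊆ H ∧ ∀ i, ∃ x y, P i x y ∧ x ∉ H ∧ y ∈ H := by
  classical
  have hneg : ∀ x : G, -x = x := fun x => neg_eq_of_add_eq_zero_left (h2 x)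
  let ι : Type := (𝔠 : Cardinal.{0}).ord.ToType
  have hι : #ι = 𝔠 := mk_ord_toType _
  obtain ⟨e⟩ : Nonempty (κ ↪ ι) := by
    rw [← Cardinal.le_def, hι]; exact hκ
  let σ : ι → κ := Function.invFun e
  have hσ : Surjective σ := Function.invFun_surjective e.injective
  let W : Set (G × G) → AddSubgroup G := fun T =>
    AddSubgroup.closure (E ∪ (Prod.fst '' T ∪ Prod.snd '' T))
  obtain ⟨s, hs⟩ := exists_rec_seq (ι := ι) (V := G × G)
    (fun i T v => P (σ i) v.1 v.2 ∧ v.1 ∉ W T ∧ v.2 ∉ W T ∧ v.1 + v.2 ∉ W T)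
    (fun T => #T < 𝔠)
    (fun i s => by
      refine lt_of_le_of_lt mk_range_le ?_
      have := mk_Iio_lt i (by simp [ι])
      rwa [hι] at this)
    (fun i T hT => by
      have : #(W T) < 𝔠 := by
        apply mk_closure_lt h2
        refine lt_of_le_of_lt (mk_union_le _ _) (add_lt_of_lt aleph0_le_continuum hE ?_)
        refine lt_of_le_of_lt (mk_union_le _ _) (add_lt_of_lt aleph0_le_continuum ?_ ?_)
        · exact lt_of_le_of_lt mk_image_le hT
        · exact lt_of_le_of_lt mk_image_le hT
      obtain ⟨x, y, h⟩ := hP (σ i) (W T) this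
      exact ⟨(x, y), h⟩)
  let K : Set ι → AddSubgroup G := fun I => AddSubgroup.closure (E ∪ (fun j => (s j).2) '' I)
  have hKmono : ∀ I I' : Set ι, I ⊆ I' → K I ≤ K I' := fun I I' h =>
    AddSubgroup.closure_mono (union_subset_union_right _ (image_mono h))
  have hKW : ∀ i, K (Iio i) ≤ W (s '' Iio i) := by
    intro i
    apply AddSubgroup.closure_mono
    apply union_subset_union_right
    rintro _ ⟨j, hj, rfl⟩
    exact Or.inr ⟨s j, ⟨j, hj, rfl⟩, rfl⟩
  have hWmono : ∀ i j : ι, i ≤ j → W (s '' Iio i) ≤ W (s '' Iio j) := by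
    intro i j hij
    apply AddSubgroup.closure_mono
    have : s '' Iio i ⊆ s '' Iio j := image_mono (Iio_subset_Iio hij)
    exact union_subset_union_right _ (union_subset_union (image_mono this) (image_mono this))
  have hxW : ∀ i j : ι, i < j → (s i).1 ∈ W (s '' Iio j) := fun i j hij =>
    AddSubgroup.subset_closure (Or.inr (Or.inl ⟨s i, ⟨i, hij, rfl⟩, rfl⟩))
  have hyW : ∀ i j : ι, i < j → (s i).2 ∈ W (s '' Iio j) := fun i j hij =>
    AddSubgroup.subset_closure (Or.inr (Or.inr ⟨s i, ⟨i, hij, rfl⟩, rfl⟩))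
  -- step
  have hstep : ∀ (b : ι) (z : G), z ∈ K (Iic b) → z ∈ K (Iio b) ∨ z + (s b).2 ∈ K (Iio b) := by
    intro b z hz
    induction hz using AddSubgroup.closure_induction with
    | mem x hx =>
      rcases hx with hx | ⟨j, hj, rfl⟩
      · exact Or.inl (AddSubgroup.subset_closure (Or.inl hx))
      · rcases lt_or_eq_of_le (mem_Iic.1 hj) with h | h
        · exact Or.inl (AddSubgroup.subset_closure (Or.inr ⟨j, h, rfl⟩))
        · right
          simp only [h, h2]
          exact zero_mem _
    | zero => exact Or.inl (zero_mem _)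
    | add x y _ _ hx hy =>
      rcases hx with hx | hx <;> rcases hy with hy | hy
      · exact Or.inl (add_mem hx hy)
      · right; rw [add_assoc]; exact add_mem hx hy
      · right; rw [add_right_comm]; exact add_mem hx hy
      · left
        have := add_mem hx hy
        rwa [add_add_add_comm, h2, add_zero] at this
    | neg x _ hx => rw [hneg]; exact hx
  have hlim : ∀ (I : Set ι) (z : G), z ∈ K I → z ∈ K ∅ ∨ ∃ b ∈ I, z ∈ K (Iic b) := by
    intro I z hz
    induction hz using AddSubgroup.closure_induction with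
    | mem x hx =>
      rcases hx with hx | ⟨j, hj, rfl⟩
      · exact Or.inl (AddSubgroup.subset_closure (Or.inl hx))
      · exact Or.inr ⟨j, hj, AddSubgroup.subset_closure (Or.inr ⟨j, mem_Iic.2 le_rfl, rfl⟩)⟩
    | zero => exact Or.inl (zero_mem _)
    | add x y _ _ hx hy =>
      rcases hx with hx | ⟨b, hb, hx⟩ <;> rcases hy with hy | ⟨c, hc, hy⟩
      · exact Or.inl (add_mem hx hy)
      · exact Or.inr ⟨c, hc, add_mem (hKmono _ _ (empty_subset _) hx) hy⟩
      · exact Or.inr ⟨b, hb, add_mem hx (hKmono _ _ (empty_subset _) hy)⟩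
      · rcases le_total b c with h | h
        · exact Or.inr ⟨c, hc, add_mem (hKmono _ _ (Iic_subset_Iic.2 h) hx) hy⟩
        · exact Or.inr ⟨b, hb, add_mem hx (hKmono _ _ (Iic_subset_Iic.2 h) hy)⟩
    | neg x _ hx => rw [hneg]; exact hx
  have hnot0 : ∀ a : ι, (s a).1 ∉ K ∅ := fun a h =>
    (hs a).2.1 (hKW a (hKmono _ _ (empty_subset _) h))
  have hnot : ∀ a b : ι, (s a).1 ∉ K (Iic b) := by
    intro a b
    induction b using WellFoundedLT.induction with
    | ind b ih =>
      intro hz
      rcases hstep b _ hz with h | h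
      · rcases hlim _ _ h with h | ⟨c, hc, h⟩
        · exact hnot0 a h
        · exact ih c hc h
      · have h' := hKW b h
        rcases lt_trichotomy a b with hab | hab | hab
        · apply (hs b).2.2.1
          have := add_mem (hxW a b hab) h'
          rwa [← add_assoc, h2, zero_add] at this
        · subst hab
          exact (hs a).2.2.2 h'
        · apply (hs a).2.1
          have := add_mem (hWmono b a hab.le h') (hyW b a hab)
          rwa [add_assoc, h2, add_zero] at this
  refine ⟨K univ, fun x hx => AddSubgroup.subset_closure (Or.inl hx), fun i => ?_⟩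
  obtain ⟨a, rfl⟩ := hσ i
  refine ⟨(s a).1, (s a).2, (hs a).1, ?_, AddSubgroup.subset_closure (Or.inr ⟨a, mem_univ _, rfl⟩)⟩
  intro h
  rcases hlim _ _ h with h | ⟨c, -, h⟩
  · exact hnot0 a h
  · exact hnot a c h

/-- the Boolean group of binary sequences -/
abbrev BG : Type := ℕ → ZMod 2

theorem BG_add_self (x : BG) : x + x = 0 := by
  funext i
  exact CharTwo.add_self_eq_zero (x i)

theorem mk_BG : #BG = 𝔠 := by
  simp [BG]

theorem exists_good_subgroup :
    ∃ H : AddSubgroup BG, (∀ n : ℕ, Pi.single n 1 ∈ H) ∧ H ≠ ⊤ ∧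
      ∀ (f : BG → BG) (J : Set BG), J.Countable → (∀ x, x ∉ J → ContinuousAt f x) →
        (∀ y, (f ⁻¹' {y}).Countable) → 𝔠 ≤ #(range (fun x => f x + x)) →
        ∃ x, x ∉ J ∧ x ∉ H ∧ f x ∈ H := by
  classical
  obtain ⟨d, hd⟩ := TopologicalSpace.exists_dense_seq BG
  let κ : Type := (ℕ → BG) × (ℕ → BG) × (ℕ → BG)
  have hκ : #κ ≤ 𝔠 := by
    simp [κ]
  let Good : κ → (BG → BG) → Prop := fun k f =>
    (∀ x, x ∉ range k.1 → ContinuousAt f x) ∧ (∀ n, f (k.1 n) = k.2.1 n) ∧
      (∀ n, f (d n) = k.2.2 n) ∧ (∀ y, (f ⁻¹' {y}).Countable) ∧ 𝔠 ≤ #(range (fun x => f x + x))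
  have huniq : ∀ k f f', Good k f → Good k f' → f = f' := by
    intro k f f' hf hf'
    funext x
    by_cases hx : x ∈ range k.1
    · obtain ⟨n, rfl⟩ := hx
      rw [hf.2.1, hf'.2.1]
    · refine tendsto_nhds_unique_of_frequently_eq (hf.1 x hx).tendsto (hf'.1 x hx).tendsto ?_
      have := mem_closure_iff_frequently.1 (hd x)
      refine this.mono ?_
      rintro _ ⟨n, rfl⟩
      rw [hf.2.2.1, hf'.2.2.1]
  have hE : #(range (fun n : ℕ => (Pi.single n 1 : BG))) < 𝔠 :=
    lt_of_le_of_lt mk_range_le (by simp [aleph0_lt_continuum])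
  have hout : ∀ W : Set BG, #W < 𝔠 → ∃ x, x ∉ W := by
    intro W hW
    by_contra hcon
    push Not at hcon
    have : W = Set.univ := eq_univ_of_forall hcon
    rw [this, mk_univ, mk_BG] at hW
    exact lt_irrefl _ hW
  obtain ⟨H, hEH, hH⟩ := exists_killing_subgroup BG_add_self κ hκ _ hE
    (fun k x y => ∀ f, Good k f → x ∉ range k.1 ∧ y = f x) (by
      intro k W hW
      by_cases hk : ∃ f, Good k f
      · obtain ⟨f, hf⟩ := hk
        have h1 : #(f ⁻¹' W) < 𝔠 := by
          have : f ⁻¹' W = ⋃ w : W, f ⁻¹' {w.1} := by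
            ext x; simp
          rw [this]
          refine lt_of_le_of_lt (mk_iUnion_le _) ?_
          refine mul_lt_of_lt aleph0_le_continuum hW ?_
          refine lt_of_le_of_lt (ciSup_le' fun w => ?_) aleph0_lt_continuum
          exact le_aleph0_iff_set_countable.2 (hf.2.2.2.1 w.1)
        have h2 : #(range k.1) < 𝔠 := lt_of_le_of_lt mk_range_le (by simp [aleph0_lt_continuum])
        have h3 : #((f ⁻¹' W ∪ (W ∪ range k.1) : Set BG)) < 𝔠 := by
          refine lt_of_le_of_lt (mk_union_le _ _) (add_lt_of_lt aleph0_le_continuum h1 ?_)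
          exact lt_of_le_of_lt (mk_union_le _ _) (add_lt_of_lt aleph0_le_continuum hW h2)
        have h4 : #(((fun x => f x + x) '' (f ⁻¹' W ∪ (W ∪ range k.1)) ∪ W : Set BG)) < 𝔠 :=
          lt_of_le_of_lt (mk_union_le _ _) (add_lt_of_lt aleph0_le_continuum
            (lt_of_le_of_lt mk_image_le h3) hW)
        have h5 : ¬ (range (fun x => f x + x) ⊆
            ((fun x => f x + x) '' (f ⁻¹' W ∪ (W ∪ range k.1)) ∪ W : Set BG)) := fun h =>
          absurd (lt_of_le_of_lt (hf.2.2.2.2.trans (mk_le_mk_of_subset h)) h4) (lt_irrefl _)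
        obtain ⟨_, ⟨x, rfl⟩, hx⟩ := not_subset.1 h5
        have hx1 : x ∉ (f ⁻¹' W ∪ (W ∪ range k.1) : Set BG) := fun h => hx (Or.inl ⟨x, h, rfl⟩)
        refine ⟨x, f x, ?_, fun h => hx1 (Or.inr (Or.inl h)), fun h => hx1 (Or.inl h), ?_⟩
        · intro f' hf'
          exact ⟨fun h => hx1 (Or.inr (Or.inr h)), by rw [huniq k f f' hf hf']⟩
        · rw [add_comm]
          exact fun h => hx (Or.inr h)
      · obtain ⟨x, hx⟩ := hout W hW
        obtain ⟨y, hy⟩ := hout (W ∪ (fun w => x + w) '' W)
          (lt_of_le_of_lt (mk_union_le _ _) (add_lt_of_lt aleph0_le_continuum hW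
            (lt_of_le_of_lt mk_image_le hW)))
        refine ⟨x, y, fun f hf => absurd ⟨f, hf⟩ hk, hx, fun h => hy (Or.inl h), fun h => hy
          (Or.inr ⟨x + y, h, ?_⟩)⟩
        simp only
        rw [← add_assoc, BG_add_self, zero_add])
  refine ⟨H, fun n => hEH ⟨n, rfl⟩, ?_, ?_⟩
  · rintro rfl
    obtain ⟨x, -, -, hx, -⟩ := hH (0, 0, 0)
    exact hx (AddSubgroup.mem_top x)
  · intro f J hJ hcont hfib hcard
    obtain ⟨j, hj⟩ := (hJ.insert 0).exists_eq_range (insert_nonempty _ _)
    have hgood : Good (j, f ∘ j, f ∘ d) f := by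
      refine ⟨fun x hx => hcont x fun h => hx ?_, fun _ => rfl, fun _ => rfl, hfib, hcard⟩
      change x ∈ range j
      rw [← hj]
      exact Or.inr h
    obtain ⟨x, y, hxy, hx, hy⟩ := hH (j, f ∘ j, f ∘ d)
    obtain ⟨h1, rfl⟩ := hxy f hgood
    refine ⟨x, fun h => h1 ?_, hx, hy⟩
    change x ∈ range j
    rw [← hj]
    exact Or.inr h

end Pool.Agent.MP_a8721e_gt

end

section

set_option autoImplicit false

open Set Filter Topology Function

namespace Pool.Agent.MP_a8721e_gt

/-- local data: two open sets with mutually inverse continuous maps -/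
structure LocEquiv {X : Type} [TopologicalSpace X] (p q : X) where
  A : Set X
  B : Set X
  f : X → X
  g : X → X
  openA : IsOpen A
  openB : IsOpen B
  contf : ContinuousOn f A
  contg : ContinuousOn g B
  mapsf : MapsTo f A B
  mapsg : MapsTo g B A
  left : ∀ x ∈ A, g (f x) = x
  right : ∀ y ∈ B, f (g y) = y
  memA : p ∈ A
  apply_eq : f p = q

theorem swap_lemma {X : Type} [TopologicalSpace X] [T2Space X] [CompactSpace X]
    (hb : TopologicalSpace.IsTopologicalBasis {s : Set X | IsClopen s})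
    {p q : X} (e : LocEquiv p q) (hne : p ≠ q) {O : Set X} (hO : IsOpen O)
    (hpO : p ∈ O) (hqO : q ∈ O) :
    ∃ h : X ≃ₜ X, h p = q ∧ ∀ x, x ∉ O → h x = x := by
  classical
  obtain ⟨U, W, hU, hW, hpU, hqW, hUW⟩ := t2_separation hne
  have hopen : IsOpen (e.A ∩ e.f ⁻¹' (W ∩ O)) :=
    e.contf.isOpen_inter_preimage e.openA (hW.inter hO)
  have hp' : p ∈ (e.A ∩ e.f ⁻¹' (W ∩ O)) ∩ (U ∩ O) := by
    refine ⟨⟨e.memA, ?_⟩, hpU, hpO⟩
    simp only [mem_preimage, e.apply_eq]
    exact ⟨hqW, hqO⟩
  obtain ⟨C, hC, hpC, hCsub⟩ := hb.exists_subset_of_mem_open hp' (hopen.inter (hU.inter hO))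
  have hC : IsClopen C := hC
  have hCA : C ⊆ e.A := fun x hx => (hCsub hx).1.1
  set D : Set X := e.f '' C with hD
  have hDB : D ⊆ e.B := by
    rintro _ ⟨x, hx, rfl⟩
    exact e.mapsf (hCA hx)
  have hDeq : D = e.B ∩ e.g ⁻¹' C := by
    ext y
    constructor
    · rintro ⟨x, hx, rfl⟩
      refine ⟨e.mapsf (hCA hx), ?_⟩
      simp only [mem_preimage, e.left x (hCA hx)]
      exact hx
    · rintro ⟨hy, hy'⟩
      exact ⟨e.g y, hy', e.right y hy⟩
  have hDopen : IsOpen D := by
    rw [hDeq]
    exact e.contg.isOpen_inter_preimage e.openB hC.isOpen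
  have hDclosed : IsClosed D :=
    ((hC.isClosed.isCompact).image_of_continuousOn (e.contf.mono hCA)).isClosed
  have hdisj : ∀ x, x ∈ C → x ∉ D := by
    rintro x hx ⟨y, hy, rfl⟩
    exact Set.disjoint_left.1 hUW (hCsub hx).2.1 (hCsub hy).1.2.1
  let s : X → X := fun x => if x ∈ C then e.f x else if x ∈ D then e.g x else x
  have hsC : ∀ x ∈ C, s x = e.f x := fun x hx => by simp only [s, if_pos hx]
  have hsD : ∀ x ∈ D, s x = e.g x := fun x hx => by
    have : x ∉ C := fun h => hdisj x h hx
    simp only [s, if_neg this, if_pos hx]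
  have hsN : ∀ x, x ∉ C → x ∉ D → s x = x := fun x h1 h2 => by
    simp only [s, if_neg h1, if_neg h2]
  have hinv : Involutive s := by
    intro x
    by_cases h1 : x ∈ C
    · rw [hsC x h1, hsD _ ⟨x, h1, rfl⟩, e.left x (hCA h1)]
    · by_cases h2 : x ∈ D
      · have h3 : e.g x ∈ C := (hDeq ▸ h2).2
        rw [hsD x h2, hsC _ h3, e.right x (hDB h2)]
      · rw [hsN x h1 h2, hsN x h1 h2]
  have hcont : Continuous s := by
    rw [continuous_iff_continuousAt]
    intro x
    by_cases h1 : x ∈ C
    · have h3 : ContinuousAt e.f x := e.contf.continuousAt (e.openA.mem_nhds (hCA h1))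
      refine h3.congr ?_
      filter_upwards [hC.isOpen.mem_nhds h1] with y hy
      exact (hsC y hy).symm
    · by_cases h2 : x ∈ D
      · have h3 : ContinuousAt e.g x := e.contg.continuousAt (e.openB.mem_nhds (hDB h2))
        refine h3.congr ?_
        filter_upwards [hDopen.mem_nhds h2] with y hy
        exact (hsD y hy).symm
      · refine (continuousAt_id).congr ?_
        filter_upwards [hC.isClosed.isOpen_compl.mem_nhds h1,
          hDclosed.isOpen_compl.mem_nhds h2] with y hy1 hy2
        exact (hsN y hy1 hy2).symm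
  refine ⟨⟨hinv.toPerm s, hcont, hcont⟩, ?_, ?_⟩
  · change s p = q
    rw [hsC p hpC, e.apply_eq]
  · intro x hx
    change s x = x
    refine hsN x (fun h => hx (hCsub h).2.2) ?_
    rintro ⟨y, hy, rfl⟩
    exact hx (hCsub hy).1.2.2

/-- a homeomorphism gives local data -/
def LocEquiv.ofHomeo {X : Type} [TopologicalSpace X] (h : X ≃ₜ X) (p : X) : LocEquiv p (h p) where
  A := univ
  B := univ
  f := h
  g := h.symm
  openA := isOpen_univ
  openB := isOpen_univ
  contf := h.continuous.continuousOn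
  contg := h.symm.continuous.continuousOn
  mapsf := mapsTo_univ _ _
  mapsg := mapsTo_univ _ _
  left := fun x _ => h.symm_apply_apply x
  right := fun x _ => h.apply_symm_apply x
  memA := mem_univ _
  apply_eq := rfl

theorem homeo_of_locEquiv {X : Type} [TopologicalSpace X] [T2Space X] [CompactSpace X]
    (hb : TopologicalSpace.IsTopologicalBasis {s : Set X | IsClopen s})
    {p q : X} (e : LocEquiv p q) : ∃ h : X ≃ₜ X, h p = q := by
  by_cases hne : p = q
  · exact ⟨Homeomorph.refl X, hne⟩
  · obtain ⟨h, h1, -⟩ := swap_lemma hb e hne isOpen_univ (mem_univ _) (mem_univ _)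
    exact ⟨h, h1⟩

theorem two_transitive {X : Type} [TopologicalSpace X] [T2Space X] [CompactSpace X]
    (hb : TopologicalSpace.IsTopologicalBasis {s : Set X | IsClopen s})
    (hom : ∀ x y : X, ∃ h : X ≃ₜ X, h x = y) {x₁ x₂ y₁ y₂ : X} (hx : x₁ ≠ x₂) (hy : y₁ ≠ y₂) :
    ∃ h : X ≃ₜ X, h x₁ = y₁ ∧ h x₂ = y₂ := by
  obtain ⟨k, hk⟩ := hom x₁ y₁
  by_cases hz : k x₂ = y₂
  · exact ⟨k, hk, hz⟩
  · obtain ⟨m, hm⟩ := hom (k x₂) y₂
    have hz1 : k x₂ ≠ y₁ := fun h => hx (k.injective (hk.trans h.symm))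
    obtain ⟨s, hs1, hs2⟩ := swap_lemma hb (hm ▸ LocEquiv.ofHomeo m (k x₂) : LocEquiv (k x₂) y₂) hz
      (O := {y₁}ᶜ) isOpen_compl_singleton hz1 hy.symm
    refine ⟨k.trans s, ?_, ?_⟩
    · change s (k x₁) = y₁
      rw [hk]
      exact hs2 y₁ (by simp)
    · exact hs1

theorem not_left_bounded {X : Type} [TopologicalSpace X] [T2Space X] [CompactSpace X] [Infinite X]
    (hb : TopologicalSpace.IsTopologicalBasis {s : Set X | IsClopen s})
    (hom : ∀ x y : X, ∃ h : X ≃ₜ X, h x = y)
    (coh : ∀ u : X → X, Continuous u → Injective u → Surjective u) :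
    ∃ U : Set (X → X), U ∈ nhds (id : X → X) ∧
      ¬ ∃ F : Set (X → X), F.Finite ∧ (∀ g ∈ F, Continuous g) ∧
          ∀ f : X → X, Continuous f →
            ∃ g ∈ F, ∃ u ∈ U, Continuous u ∧ f = g ∘ u := by
  classical
  obtain ⟨x₁, x₂, hx⟩ := exists_pair_ne X
  obtain ⟨V, hV, hx₁V, hVsub⟩ := hb.exists_subset_of_mem_open (a := x₁) (u := {x₂}ᶜ) hx
    isOpen_compl_singleton
  have hV : IsClopen V := hV
  have hx₂V : x₂ ∉ V := fun h => hVsub h rfl
  refine ⟨{u | u x₁ ∈ V ∧ u x₂ ∉ V}, ?_, ?_⟩
  · have h1 : {u : X → X | u x₁ ∈ V} ∈ nhds (id : X → X) :=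
      (continuous_apply x₁).continuousAt.preimage_mem_nhds (hV.isOpen.mem_nhds hx₁V)
    have h2 : {u : X → X | u x₂ ∈ Vᶜ} ∈ nhds (id : X → X) :=
      (continuous_apply x₂).continuousAt.preimage_mem_nhds (hV.compl.isOpen.mem_nhds hx₂V)
    filter_upwards [h1, h2] with u hu1 hu2
    exact ⟨hu1, hu2⟩
  · rintro ⟨F, hF, -, hall⟩
    have : Finite F := hF.to_subtype
    obtain ⟨y₁, y₂, hy, hyy⟩ := Finite.exists_ne_map_eq_of_infinite
      (fun y : X => fun g : F => y ∈ g.1 '' V)
    obtain ⟨h, h1, h2⟩ := two_transitive hb hom hx hy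
    obtain ⟨g, hg, u, hu, hucont, hfu⟩ := hall h h.continuous
    have huinj : Injective u := by
      apply Injective.of_comp (f := g)
      rw [← hfu]
      exact h.injective
    have husurj := coh u hucont huinj
    have hginj : Injective g := by
      apply Injective.of_comp_right (g := u) _ husurj
      rw [← hfu]
      exact h.injective
    have e1 : y₁ ∈ g '' V := ⟨u x₁, hu.1, by rw [← h1, hfu]; rfl⟩
    have e2 : y₂ ∈ g '' V := by
      have := congrFun hyy ⟨g, hg⟩
      simp only at this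
      exact this ▸ e1
    obtain ⟨v, hv, hgv⟩ := e2
    have : v = u x₂ := hginj (by rw [hgv, ← h2, hfu]; rfl)
    exact hu.2 (this ▸ hv)

end Pool.Agent.MP_a8721e_gt

end

section

set_option autoImplicit false

open Set Filter Topology Function

namespace Pool.Agent.MP_a8721e_gt

theorem z2_cases (a : ZMod 2) : a = 0 ∨ a = 1 := by
  revert a; decide

theorem z2_add_self (a : ZMod 2) : a + a = 0 := CharTwo.add_self_eq_zero a

theorem BG_add_eq_zero {x y : BG} : x + y = 0 ↔ x = y := by
  constructor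
  · intro h
    have : x + y + y = y := by rw [h, zero_add]
    rwa [add_assoc, BG_add_self, add_zero] at this
  · rintro rfl
    exact BG_add_self x

/-- index of the first nonzero coordinate -/
noncomputable def lead (z : BG) : ℕ := sInf {n | z n ≠ 0}

/-- the coordinate following the first nonzero one -/
noncomputable def col (z : BG) : ZMod 2 := z (lead z + 1)

theorem lead_eq {z : BG} {n : ℕ} (h1 : z n = 1) (h0 : ∀ i, i < n → z i = 0) : lead z = n := by
  have hn : n ∈ {n | z n ≠ 0} := by
    change z n ≠ 0; rw [h1]; exact one_ne_zero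
  apply le_antisymm (Nat.sInf_le hn)
  by_contra hlt
  push Not at hlt
  exact Nat.sInf_mem (⟨n, hn⟩ : {n | z n ≠ 0}.Nonempty) (h0 _ hlt)

theorem apply_lead {z : BG} (hz : z ≠ 0) : z (lead z) = 1 := by
  have hne : {n | z n ≠ 0}.Nonempty := by
    by_contra h
    apply hz
    funext i
    by_contra hi
    exact h ⟨i, hi⟩
  rcases z2_cases (z (lead z)) with h | h
  · exact absurd h (Nat.sInf_mem hne)
  · exact h

theorem apply_lt_lead {z : BG} {i : ℕ} (hi : i < lead z) : z i = 0 := by
  by_contra h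
  exact absurd (Nat.sInf_le (show i ∈ {n | z n ≠ 0} from h)) (not_le.2 hi)

theorem eventually_agree {α : Type*} {l : Filter α} {w : α → BG} {z : BG}
    (h : Tendsto w l (𝓝 z)) (m : ℕ) : ∀ᶠ a in l, ∀ i, i < m → w a i = z i := by
  have : ∀ i : ℕ, ∀ᶠ a in l, w a i = z i := fun i => by
    have := tendsto_pi_nhds.1 h i
    rwa [nhds_discrete, tendsto_pure] at this
  have h2 := (eventually_all_finite (finite_lt_nat m)).2 (fun i _ => this i)
  exact h2.mono fun a ha i hi => ha i hi

theorem eventually_lead {α : Type*} {l : Filter α} {w : α → BG} {z : BG} (hz : z ≠ 0)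
    (h : Tendsto w l (𝓝 z)) : ∀ᶠ a in l, w a ≠ 0 ∧ lead (w a) = lead z ∧ col (w a) = col z := by
  filter_upwards [eventually_agree h (lead z + 2)] with a ha
  have h1 : w a (lead z) = 1 := by rw [ha _ (by omega), apply_lead hz]
  have h2 : lead (w a) = lead z :=
    lead_eq h1 fun i hi => by rw [ha _ (by omega), apply_lt_lead hi]
  refine ⟨fun h0 => ?_, h2, ?_⟩
  · rw [h0] at h1
    exact zero_ne_one h1
  · unfold col
    rw [h2, ha _ (by omega)]

/-- the carrier of the split space -/
def carrier (H : AddSubgroup BG) : Set (BG × (BG → ZMod 2)) :=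
  {p | ∀ x, (x ∈ H → p.2 x = 0) ∧ (x ∉ H → x ≠ p.1 → p.2 x = col (x + p.1))}

theorem isClosed_carrier (H : AddSubgroup BG) : IsClosed (carrier H) := by
  rw [isClosed_iff_ultrafilter]
  intro p u hu hp x
  have hu1 : Tendsto (fun q : BG × (BG → ZMod 2) => q.1) u (𝓝 p.1) :=
    (continuous_fst.tendsto p).mono_left hu
  have hu2 : ∀ᶠ q : BG × (BG → ZMod 2) in u, q.2 x = p.2 x := by
    have : Tendsto (fun q : BG × (BG → ZMod 2) => q.2 x) u (𝓝 (p.2 x)) :=
      (((continuous_apply x).comp continuous_snd).tendsto p).mono_left hu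
    rwa [nhds_discrete, tendsto_pure] at this
  have hp' : ∀ᶠ q in (u : Filter _), q ∈ carrier H := hp
  constructor
  · intro hx
    obtain ⟨q, hq1, hq2⟩ := (hu2.and hp').exists
    rw [← hq1]
    exact (hq2 x).1 hx
  · intro hx hne
    have h3 := eventually_lead (z := x + p.1) (fun h => hne (BG_add_eq_zero.1 h))
      (tendsto_const_nhds.add hu1)
    obtain ⟨q, ⟨hq1, hq2⟩, hq3⟩ := ((hu2.and hp').and h3).exists
    rw [← hq1, ← hq3.2.2]
    exact (hq2 x).2 hx fun h => hq3.1 (BG_add_eq_zero.2 h)

/-- the split space -/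
abbrev Sp (H : AddSubgroup BG) : Type := carrier H

instance compactSp (H : AddSubgroup BG) : CompactSpace (Sp H) :=
  isCompact_iff_compactSpace.1 (isClosed_carrier H).isCompact

/-- the projection -/
def pr {H : AddSubgroup BG} (p : Sp H) : BG := p.1.1

theorem continuous_pr {H : AddSubgroup BG} : Continuous (pr : Sp H → BG) :=
  continuous_fst.comp continuous_subtype_val

theorem continuous_coord {H : AddSubgroup BG} (x : BG) : Continuous (fun p : Sp H => p.1.2 x) :=
  (continuous_apply x).comp (continuous_snd.comp continuous_subtype_val)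

theorem coord_of_mem {H : AddSubgroup BG} (p : Sp H) {x : BG} (hx : x ∈ H) : p.1.2 x = 0 :=
  (p.2 x).1 hx

theorem coord_of_ne {H : AddSubgroup BG} (p : Sp H) {x : BG} (hx : x ∉ H) (hne : x ≠ pr p) :
    p.1.2 x = col (x + pr p) :=
  (p.2 x).2 hx hne

theorem Sp_ext {H : AddSubgroup BG} {p q : Sp H} (h1 : pr p = pr q)
    (h2 : pr p ∉ H → p.1.2 (pr p) = q.1.2 (pr p)) : p = q := by
  apply Subtype.ext
  refine Prod.ext h1 (funext fun x => ?_)
  by_cases hx : x ∈ H
  · rw [coord_of_mem p hx, coord_of_mem q hx]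
  · by_cases hne : x = pr p
    · subst hne
      exact h2 hx
    · rw [coord_of_ne p hx hne, coord_of_ne q hx (h1 ▸ hne), h1]

open Classical in
/-- the point over `y` with colour `b` -/
noncomputable def lft (H : AddSubgroup BG) (y : BG) (b : ZMod 2) : Sp H :=
  ⟨(y, fun x => if x ∈ H then 0 else if x = y then b else col (x + y)), fun x =>
    ⟨fun hx => by simp only [if_pos hx], fun hx hne => by simp only [if_neg hx, if_neg hne]⟩⟩

@[simp] theorem pr_lft (H : AddSubgroup BG) (y : BG) (b : ZMod 2) : pr (lft H y b) = y := rfl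

theorem lft_coord {H : AddSubgroup BG} {y : BG} (hy : y ∉ H) (b : ZMod 2) :
    (lft H y b).1.2 y = b := by
  simp [lft, hy]

theorem eq_lft {H : AddSubgroup BG} (p : Sp H) : p = lft H (pr p) (p.1.2 (pr p)) :=
  Sp_ext rfl fun h => (lft_coord h _).symm

theorem eq_lft_cases {H : AddSubgroup BG} (p : Sp H) :
    p = lft H (pr p) 0 ∨ p = lft H (pr p) 1 := by
  rcases z2_cases (p.1.2 (pr p)) with h | h
  · left; rw [← h]; exact eq_lft p
  · right; rw [← h]; exact eq_lft p

theorem tendsto_Sp {H : AddSubgroup BG} {α : Type*} {l : Filter α} {q : α → Sp H} {p : Sp H}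
    (h1 : Tendsto (fun a => pr (q a)) l (𝓝 (pr p)))
    (h2 : pr p ∉ H → ∀ᶠ a in l, (q a).1.2 (pr p) = p.1.2 (pr p)) : Tendsto q l (𝓝 p) := by
  rw [tendsto_subtype_rng, Prod.tendsto_iff]
  refine ⟨h1, tendsto_pi_nhds.2 fun x => ?_⟩
  rw [nhds_discrete, tendsto_pure]
  by_cases hx : x ∈ H
  · exact Eventually.of_forall fun a => by rw [coord_of_mem _ hx, coord_of_mem _ hx]
  · by_cases hne : x = pr p
    · subst hne
      exact h2 hx
    · have h3 := eventually_lead (z := x + pr p) (fun h => hne (BG_add_eq_zero.1 h))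
        (tendsto_const_nhds.add h1)
      filter_upwards [h3] with a ha
      rw [coord_of_ne p hx hne, ← ha.2.2]
      exact coord_of_ne (q a) hx fun h => ha.1 (BG_add_eq_zero.2 h)

/-- translation by an element of the subgroup -/
def tr {H : AddSubgroup BG} (h : H) (p : Sp H) : Sp H :=
  ⟨(pr p + h, fun x => p.1.2 (x + h)), fun x =>
    ⟨fun hx => coord_of_mem p (add_mem hx h.2), fun hx hne => by
      have h1 : x + h ∉ H := fun h' => hx (by
        have := add_mem h' h.2
        rwa [add_assoc, BG_add_self, add_zero] at this)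
      have h2 : x + h ≠ pr p := fun h' => hne (by
        simp only
        rw [← h', add_assoc, BG_add_self, add_zero])
      simp only
      rw [coord_of_ne p h1 h2]
      congr 1
      abel⟩⟩

@[simp] theorem pr_tr {H : AddSubgroup BG} (h : H) (p : Sp H) : pr (tr h p) = pr p + h := rfl

theorem tr_tr {H : AddSubgroup BG} (h : H) (p : Sp H) : tr h (tr h p) = p := by
  apply Subtype.ext
  refine Prod.ext ?_ (funext fun x => ?_)
  · change pr p + h + h = pr p
    rw [add_assoc, BG_add_self, add_zero]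
  · change p.1.2 (x + h + h) = p.1.2 x
    rw [add_assoc, BG_add_self, add_zero]

theorem continuous_tr {H : AddSubgroup BG} (h : H) : Continuous (tr h : Sp H → Sp H) := by
  refine Continuous.subtype_mk ?_ _
  refine Continuous.prodMk (continuous_pr.add continuous_const) ?_
  exact continuous_pi fun x => continuous_coord _

/-- truncation -/
def trunc (m : ℕ) (y : BG) : BG := fun i => if i < m then y i else 0

theorem trunc_mem {H : AddSubgroup BG} (hE : ∀ n : ℕ, Pi.single n 1 ∈ H) (m : ℕ) (y : BG) :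
    trunc m y ∈ H := by
  induction m with
  | zero =>
    have : trunc 0 y = 0 := by funext i; simp [trunc]
    rw [this]; exact zero_mem _
  | succ m ih =>
    rcases z2_cases (y m) with h | h
    · have : trunc (m + 1) y = trunc m y := by
        funext i
        simp only [trunc]
        rcases lt_trichotomy i m with hi | hi | hi
        · rw [if_pos hi, if_pos (by omega)]
        · subst hi; simp [h]
        · rw [if_neg (by omega), if_neg (by omega)]
      rw [this]; exact ih
    · have : trunc (m + 1) y = trunc m y + Pi.single m 1 := by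
        funext i
        simp only [trunc, Pi.add_apply]
        rcases lt_trichotomy i m with hi | hi | hi
        · rw [if_pos hi, if_pos (by omega), Pi.single_eq_of_ne (by omega), add_zero]
        · subst hi; simp [h]
        · rw [if_neg (by omega), if_neg (by omega), Pi.single_eq_of_ne (by omega), add_zero]
      rw [this]; exact add_mem ih (hE m)

/-- correction pattern -/
def pat (n : ℕ) (b : ZMod 2) : BG := fun i => if i = n then 1 else if i = n + 1 then b + 1 else 0

/-- the finitely supported shift used on the n-th piece -/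
def shiftv (y : BG) (b : ZMod 2) (n : ℕ) : BG := trunc (n + 2) (y + pat n b)

theorem shiftv_lt {y : BG} {b : ZMod 2} {n i : ℕ} (hi : i < n) : shiftv y b n i = y i := by
  simp only [shiftv, trunc, pat, Pi.add_apply]
  rw [if_pos (by omega), if_neg (by omega), if_neg (by omega), add_zero]

theorem shiftv_self {y : BG} {b : ZMod 2} {n : ℕ} : shiftv y b n n = y n + 1 := by
  simp [shiftv, trunc, pat]

theorem shiftv_succ {y : BG} {b : ZMod 2} {n : ℕ} : shiftv y b n (n + 1) = y (n + 1) + (b + 1) := by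
  simp [shiftv, trunc, pat]

theorem fact_one {y z : BG} {b : ZMod 2} (hz : z ≠ y) (hc : col (y + z) = b) :
    (z + shiftv y b (lead (y + z))) (lead (y + z) + 1) = 1 ∧
      ∀ i, i < lead (y + z) + 1 → (z + shiftv y b (lead (y + z))) i = 0 := by
  have hne : y + z ≠ 0 := fun h => hz (BG_add_eq_zero.1 h).symm
  set n := lead (y + z) with hn
  have h1 : y n + z n = 1 := apply_lead hne
  have h2 : y (n + 1) + z (n + 1) = b := hc
  constructor
  · rw [Pi.add_apply, shiftv_succ, ← h2]
    have := z2_add_self (y (n + 1))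
    have := z2_add_self (z (n + 1))
    linear_combination (z2_add_self (y (n + 1))) + (z2_add_self (z (n + 1)))
  · intro i hi
    rcases Nat.lt_succ_iff_lt_or_eq.1 hi with h | h
    · rw [Pi.add_apply, shiftv_lt h, add_comm]
      exact apply_lt_lead (z := y + z) h
    · rw [h, Pi.add_apply, shiftv_self]
      linear_combination h1 + (z2_add_self 1)

theorem fact_two {y w : BG} {b : ZMod 2} {n : ℕ} (h1 : w (n + 1) = 1)
    (h0 : ∀ i, i < n + 1 → w i = 0) :
    (y + (w + shiftv y b n)) n = 1 ∧ (∀ i, i < n → (y + (w + shiftv y b n)) i = 0) ∧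
      (y + (w + shiftv y b n)) (n + 1) = b := by
  refine ⟨?_, fun i hi => ?_, ?_⟩
  · simp only [Pi.add_apply, shiftv_self, h0 n (by omega)]
    linear_combination (z2_add_self (y n))
  · simp only [Pi.add_apply, shiftv_lt hi, h0 i (by omega)]
    linear_combination (z2_add_self (y i))
  · simp only [Pi.add_apply, shiftv_succ, h1]
    linear_combination (z2_add_self (y (n + 1))) + (z2_add_self 1)

end Pool.Agent.MP_a8721e_gt

end

section

set_option autoImplicit false

open Set Filter Topology Function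

namespace Pool.Agent.MP_a8721e_gt

theorem clopen_basis (H : AddSubgroup BG) :
    TopologicalSpace.IsTopologicalBasis {s : Set (Sp H) | IsClopen s} :=
  isTopologicalBasis_isClopen

theorem shiftv_mem {H : AddSubgroup BG} (hE : ∀ n : ℕ, Pi.single n 1 ∈ H) (y : BG) (b : ZMod 2)
    (n : ℕ) : shiftv y b n ∈ H := trunc_mem hE _ _

theorem nonempty_locEquiv {H : AddSubgroup BG} (hE : ∀ n : ℕ, Pi.single n 1 ∈ H) {y : BG}
    (hy : y ∉ H) (b : ZMod 2) : Nonempty (LocEquiv (lft H y b) (lft H 0 0)) := by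
  classical
  let sh : ℕ → H := fun n => ⟨shiftv y b n, shiftv_mem hE y b n⟩
  let f : Sp H → Sp H := fun q => if pr q = y then lft H 0 0 else tr (sh (lead (y + pr q))) q
  let g : Sp H → Sp H := fun q => if pr q = 0 then lft H y b else tr (sh (lead (pr q) - 1)) q
  let A : Set (Sp H) := {q | q.1.2 y = b}
  let B : Set (Sp H) := {q | pr q 0 = 0}
  have hA : IsOpen A := (isOpen_discrete {b}).preimage (continuous_coord y)
  have hB : IsOpen B := (isOpen_discrete {(0 : ZMod 2)}).preimage
    ((continuous_apply 0).comp continuous_pr)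
  have hf1 : ∀ q, pr q = y → f q = lft H 0 0 := fun q hq => by simp only [f, if_pos hq]
  have hf2 : ∀ q, pr q ≠ y → f q = tr (sh (lead (y + pr q))) q := fun q hq => by
    simp only [f, if_neg hq]
  have hg1 : ∀ q, pr q = 0 → g q = lft H y b := fun q hq => by simp only [g, if_pos hq]
  have hg2 : ∀ q, pr q ≠ 0 → g q = tr (sh (lead (pr q) - 1)) q := fun q hq => by
    simp only [g, if_neg hq]
  have hAp : ∀ q ∈ A, pr q = y → q = lft H y b := fun q hq h =>
    Sp_ext h fun _ => by rw [h, lft_coord hy]; exact hq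
  have hBp : ∀ q : Sp H, pr q = 0 → q = lft H 0 0 := fun q h =>
    Sp_ext h fun h' => absurd (h ▸ zero_mem H) h'
  have hAcol : ∀ q ∈ A, pr q ≠ y → col (y + pr q) = b := fun q hq h => by
    rw [← coord_of_ne q hy h.symm]; exact hq
  have hF1 : ∀ q ∈ A, pr q ≠ y → pr (f q) (lead (y + pr q) + 1) = 1 ∧
      ∀ i, i < lead (y + pr q) + 1 → pr (f q) i = 0 := fun q hq h => by
    rw [hf2 q h, pr_tr]
    exact fact_one h (hAcol q hq h)
  have hBlead : ∀ q ∈ B, pr q ≠ 0 → lead (pr q) - 1 + 1 = lead (pr q) := fun q hq h => by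
    have : lead (pr q) ≠ 0 := fun h0 => by
      have h1 := apply_lead h
      rw [h0] at h1
      exact zero_ne_one ((show pr q 0 = 0 from hq).symm.trans h1)
    omega
  have hF2 : ∀ q ∈ B, pr q ≠ 0 → (y + pr (g q)) (lead (pr q) - 1) = 1 ∧
      (∀ i, i < lead (pr q) - 1 → (y + pr (g q)) i = 0) ∧
      (y + pr (g q)) (lead (pr q) - 1 + 1) = b := fun q hq h => by
    rw [hg2 q h, pr_tr]
    refine fact_two ?_ fun i hi => ?_
    · rw [hBlead q hq h]; exact apply_lead h
    · rw [hBlead q hq h] at hi; exact apply_lt_lead hi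
  have hF2' : ∀ q ∈ B, pr q ≠ 0 → pr (g q) ≠ y ∧ lead (y + pr (g q)) = lead (pr q) - 1 := by
    intro q hq h
    obtain ⟨h1, h2, -⟩ := hF2 q hq h
    refine ⟨fun h3 => ?_, lead_eq h1 h2⟩
    rw [h3, BG_add_self] at h1
    exact zero_ne_one h1
  have hmapsf : MapsTo f A B := by
    intro q hq
    by_cases h : pr q = y
    · rw [hf1 q h]; rfl
    · exact (hF1 q hq h).2 0 (by omega)
  have hmapsg : MapsTo g B A := by
    intro q hq
    by_cases h : pr q = 0
    · rw [hg1 q h]; exact lft_coord hy b
    · obtain ⟨h1, h2⟩ := hF2' q hq h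
      change (g q).1.2 y = b
      rw [coord_of_ne _ hy h1.symm, col, h2]
      exact (hF2 q hq h).2.2
  refine ⟨⟨A, B, f, g, hA, hB, ?_, ?_, hmapsf, hmapsg, ?_, ?_, lft_coord hy b, hf1 _ rfl⟩⟩
  · intro q hq
    by_cases h : pr q = y
    · rw [ContinuousWithinAt, hf1 q h]
      refine tendsto_Sp ?_ fun h' => absurd (zero_mem H) h'
      rw [pr_lft, tendsto_pi_nhds]
      intro i
      rw [nhds_discrete, tendsto_pure]
      have h1 : Tendsto pr (𝓝[A] q) (𝓝 y) :=
        h ▸ (continuous_pr.tendsto q).mono_left nhdsWithin_le_nhds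
      filter_upwards [eventually_agree h1 i, self_mem_nhdsWithin] with r hr hrA
      by_cases h2 : pr r = y
      · rw [hf1 r h2]; rfl
      · refine (hF1 r hrA h2).2 i ?_
        by_contra hcon
        have h3 : lead (y + pr r) < i := by omega
        have h4 := apply_lead (z := y + pr r) fun h5 => h2 (BG_add_eq_zero.1 h5).symm
        rw [Pi.add_apply, hr _ h3, z2_add_self] at h4
        exact zero_ne_one h4
    · apply ContinuousAt.continuousWithinAt
      refine ((continuous_tr (sh (lead (y + pr q)))).continuousAt).congr ?_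
      have h1 := eventually_lead (z := y + pr q) (fun h5 => h (BG_add_eq_zero.1 h5).symm)
        (tendsto_const_nhds.add (continuous_pr.tendsto q))
      filter_upwards [h1] with r hr
      rw [hf2 r fun h6 => hr.1 (BG_add_eq_zero.2 h6.symm), hr.2.1]
  · intro q hq
    by_cases h : pr q = 0
    · rw [ContinuousWithinAt, hg1 q h]
      refine tendsto_Sp ?_ fun _ => ?_
      · rw [pr_lft, tendsto_pi_nhds]
        intro i
        rw [nhds_discrete, tendsto_pure]
        have h1 : Tendsto pr (𝓝[B] q) (𝓝 0) :=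
          h ▸ (continuous_pr.tendsto q).mono_left nhdsWithin_le_nhds
        filter_upwards [eventually_agree h1 (i + 2), self_mem_nhdsWithin] with r hr hrB
        by_cases h2 : pr r = 0
        · rw [hg1 r h2]; rfl
        · have h3 : i < lead (pr r) - 1 := by
            by_contra hcon
            have h4 := apply_lead h2
            rw [hr _ (by omega)] at h4
            exact zero_ne_one h4
          have h5 := (hF2 r hrB h2).2.1 i h3
          rw [Pi.add_apply] at h5
          linear_combination h5 - z2_add_self (y i)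
      · filter_upwards [self_mem_nhdsWithin] with r hrB
        rw [pr_lft, lft_coord hy]
        exact hmapsg hrB
    · apply ContinuousAt.continuousWithinAt
      refine ((continuous_tr (sh (lead (pr q) - 1))).continuousAt).congr ?_
      have h1 := eventually_lead h (continuous_pr.tendsto q)
      filter_upwards [h1] with r hr
      rw [hg2 r hr.1, hr.2.1]
  · intro q hq
    by_cases h : pr q = y
    · rw [hf1 q h, hg1 _ rfl]
      exact (hAp q hq h).symm
    · obtain ⟨h1, h2⟩ := hF1 q hq h
      have h3 : pr (f q) ≠ 0 := fun h4 => by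
        rw [h4] at h1; exact zero_ne_one h1
      rw [hg2 _ h3, lead_eq h1 h2, Nat.add_sub_cancel, hf2 q h, tr_tr]
  · intro q hq
    by_cases h : pr q = 0
    · rw [hg1 q h, hf1 _ rfl]
      exact (hBp q h).symm
    · obtain ⟨h1, h2⟩ := hF2' q hq h
      rw [hf2 _ h1, h2, hg2 q h, tr_tr]

theorem to_base {H : AddSubgroup BG} (hE : ∀ n : ℕ, Pi.single n 1 ∈ H) (p : Sp H) :
    ∃ h : Sp H ≃ₜ Sp H, h p = lft H 0 0 := by
  by_cases hp : pr p ∈ H
  · let t : H := ⟨pr p, hp⟩
    refine ⟨⟨(Involutive.toPerm (tr t) (tr_tr t)), continuous_tr t, continuous_tr t⟩, ?_⟩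
    change tr t p = _
    refine Sp_ext (BG_add_self _) fun h => absurd ?_ h
    exact add_mem hp hp
  · obtain ⟨e⟩ := nonempty_locEquiv hE hp (p.1.2 (pr p))
    obtain ⟨h, hh⟩ := homeo_of_locEquiv (clopen_basis H) e
    exact ⟨h, by rw [eq_lft p]; exact hh⟩

theorem homogeneous_Sp {H : AddSubgroup BG} (hE : ∀ n : ℕ, Pi.single n 1 ∈ H) (p q : Sp H) :
    ∃ h : Sp H ≃ₜ Sp H, h p = q := by
  obtain ⟨h1, hp⟩ := to_base hE p
  obtain ⟨h2, hq⟩ := to_base hE q
  refine ⟨h1.trans h2.symm, ?_⟩
  change h2.symm (h1 p) = q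
  rw [hp, ← hq, Homeomorph.symm_apply_apply]

instance infiniteSp (H : AddSubgroup BG) : Infinite (Sp H) :=
  Infinite.of_injective (fun y => lft H y 0) fun _ _ h => congrArg pr h

theorem exists_lft_mem {H : AddSubgroup BG} (hE : ∀ n : ℕ, Pi.single n 1 ∈ H) {O : Set (Sp H)}
    (hO : IsOpen O) {p : Sp H} (hp : p ∈ O) : ∃ z ∈ H, lft H z 0 ∈ O := by
  by_cases h : pr p ∈ H
  · refine ⟨pr p, h, ?_⟩
    have : lft H (pr p) 0 = p := Sp_ext rfl fun h' => absurd h h'
    rwa [this]
  · set y := pr p with hy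
    set b := p.1.2 y with hb
    let z : ℕ → BG := fun n => Pi.single (n + 1) 1 + shiftv y b n
    have hz : ∀ n, (y + z n) n = 1 ∧ (∀ i, i < n → (y + z n) i = 0) ∧ (y + z n) (n + 1) = b :=
      fun n => fact_two (by simp) fun i hi => Pi.single_eq_of_ne (by omega) _
    have ht : Tendsto (fun n => lft H (z n) 0) atTop (𝓝 p) := by
      refine tendsto_Sp ?_ fun _ => Eventually.of_forall fun n => ?_
      · rw [tendsto_pi_nhds]
        intro i
        rw [nhds_discrete, tendsto_pure]
        filter_upwards [eventually_gt_atTop i] with n hn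
        have h5 := (hz n).2.1 i hn
        rw [Pi.add_apply] at h5
        rw [pr_lft, ← hy]
        linear_combination h5 - z2_add_self (y i)
      · have h1 : y ≠ z n := fun h2 => by
          have h3 := (hz n).1
          rw [← h2, BG_add_self] at h3
          exact zero_ne_one h3
        rw [← hy, coord_of_ne (lft H (z n) 0) h h1, pr_lft, col, lead_eq (hz n).1 (hz n).2.1]
        exact (hz n).2.2
    obtain ⟨n, hn⟩ := (ht.eventually (hO.mem_nhds hp)).exists
    exact ⟨z n, add_mem (hE _) (shiftv_mem hE y b n), hn⟩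

end Pool.Agent.MP_a8721e_gt

end

section

set_option autoImplicit false

open Set Filter Topology Function MeasureTheory Cardinal Pointwise

namespace Pool.Agent.MP_a8721e_gt

instance polishBG : PolishSpace BG := { }

theorem finite_jump {H : AddSubgroup BG} (φ : Sp H → ZMod 2) (hφ : Continuous φ) :
    {x : BG | φ (lft H x 0) ≠ φ (lft H x 1)}.Finite := by
  by_contra hinf
  have hS : {x : BG | φ (lft H x 0) ≠ φ (lft H x 1)}.Infinite := hinf
  have hne : (cofinite ⊓ 𝓟 {x : BG | φ (lft H x 0) ≠ φ (lft H x 1)}).NeBot :=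
    hS.cofinite_inf_principal_neBot
  let u : Ultrafilter BG := Ultrafilter.of (cofinite ⊓ 𝓟 {x : BG | φ (lft H x 0) ≠ φ (lft H x 1)})
  have hu : (u : Filter BG) ≤ _ := Ultrafilter.of_le _
  have hu1 : (u : Filter BG) ≤ cofinite := hu.trans inf_le_left
  have hu2 : ∀ᶠ x in (u : Filter BG), φ (lft H x 0) ≠ φ (lft H x 1) :=
    le_principal_iff.1 (hu.trans inf_le_right)
  obtain ⟨p, -, hp⟩ := isCompact_univ.ultrafilter_le_nhds (u.map fun x => lft H x 0) (by simp)
  have h0 : Tendsto (fun x => lft H x 0) u (𝓝 p) := hp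
  have h1 : Tendsto (fun x => lft H x 1) u (𝓝 p) := by
    have h6 : Tendsto (fun x : BG => x) u (𝓝 (pr p)) := (continuous_pr.tendsto p).comp h0
    refine tendsto_Sp h6 fun hH => ?_
    have h2 := ((continuous_coord (pr p)).tendsto p).comp h0
    rw [nhds_discrete, tendsto_pure] at h2
    have h3 : ∀ᶠ x in (u : Filter BG), x ≠ pr p := hu1 (eventually_cofinite_ne _)
    filter_upwards [h2, h3] with x hx hx'
    rw [← hx, coord_of_ne (lft H x 1) hH hx'.symm]
    exact (coord_of_ne (lft H x 0) hH hx'.symm).symm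
  have h4 := (hφ.tendsto p).comp h0
  have h5 := (hφ.tendsto p).comp h1
  rw [nhds_discrete, tendsto_pure] at h4 h5
  obtain ⟨x, ⟨hx1, hx2⟩, hx3⟩ := ((h4.and h5).and hu2).exists
  exact hx3 (hx1.trans hx2.symm)

theorem countable_jump {H : AddSubgroup BG} (φ : Sp H → BG) (hφ : Continuous φ) :
    {x : BG | φ (lft H x 0) ≠ φ (lft H x 1)}.Countable := by
  have : {x : BG | φ (lft H x 0) ≠ φ (lft H x 1)} ⊆
      ⋃ n : ℕ, {x : BG | φ (lft H x 0) n ≠ φ (lft H x 1) n} := by
    intro x hx
    obtain ⟨n, hn⟩ := Function.ne_iff.1 hx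
    exact mem_iUnion.2 ⟨n, hn⟩
  exact (countable_iUnion fun n =>
    (finite_jump (fun p => φ p n) ((continuous_apply n).comp hφ)).countable).mono this

theorem continuousAt_of_not_jump {H : AddSubgroup BG} (φ : Sp H → BG) (hφ : Continuous φ)
    {y : BG} (hy : φ (lft H y 0) = φ (lft H y 1)) :
    ContinuousAt (fun x => φ (lft H x 0)) y := by
  rw [ContinuousAt, tendsto_iff_ultrafilter]
  intro u hu
  obtain ⟨p, -, hp⟩ := isCompact_univ.ultrafilter_le_nhds (u.map fun x => lft H x 0) (by simp)
  have h0 : Tendsto (fun x => lft H x 0) u (𝓝 p) := hp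
  have h1 : Tendsto (fun x : BG => x) u (𝓝 (pr p)) := (continuous_pr.tendsto p).comp h0
  have h2 : pr p = y := tendsto_nhds_unique h1 hu
  have h3 : φ p = φ (lft H y 0) := by
    rcases eq_lft_cases p with h | h
    · rw [h, h2]
    · rw [h, h2, hy]
  rw [← h3]
  exact (hφ.tendsto p).comp h0

theorem eq_top_of_pos {H : AddSubgroup BG} (hE : ∀ n : ℕ, Pi.single n 1 ∈ H)
    (μ : Measure BG) [μ.IsAddHaarMeasure] {C : Set BG} (hC : MeasurableSet C) (hCH : C ⊆ H)
    (hpos : 0 < μ C) : H = ⊤ := by
  have h1 : C - C ∈ 𝓝 (0 : BG) :=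
    Measure.sub_mem_nhds_zero_of_addHaar_pos_ne_top μ C hC hpos (measure_ne_top _ _)
  have h2 : (H : Set BG) ∈ 𝓝 (0 : BG) := by
    refine mem_of_superset h1 ?_
    rintro _ ⟨a, ha, b, hb, rfl⟩
    exact sub_mem (hCH ha) (hCH hb)
  have h3 : IsClosed (H : Set BG) := H.isClosed_of_isOpen (H.isOpen_of_mem_nhds h2)
  rw [eq_top_iff]
  intro y _
  refine h3.mem_of_tendsto (f := fun m => trunc m y) (b := atTop) ?_
    (Eventually.of_forall fun m => trunc_mem hE m y)
  rw [tendsto_pi_nhds]
  intro i
  rw [nhds_discrete, tendsto_pure]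
  filter_upwards [eventually_gt_atTop i] with m hm
  simp [trunc, hm]

instance neBot_BG : (𝓝[≠] (0 : BG)).NeBot := by
  have h : Tendsto (fun n : ℕ => (Pi.single n 1 : BG)) atTop (𝓝[≠] 0) := by
    rw [tendsto_nhdsWithin_iff]
    constructor
    · rw [tendsto_pi_nhds]
      intro i
      rw [nhds_discrete, tendsto_pure]
      filter_upwards [eventually_gt_atTop i] with m hm
      exact Pi.single_eq_of_ne (by omega) _
    · refine Eventually.of_forall fun n h => ?_
      have := congrFun (show (Pi.single n 1 : BG) = 0 from h) n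
      simp at this
  exact h.neBot

theorem coHopf {H : AddSubgroup BG} (hE : ∀ n : ℕ, Pi.single n 1 ∈ H) (hne : H ≠ ⊤)
    (hkill : ∀ (f : BG → BG) (J : Set BG), J.Countable → (∀ x, x ∉ J → ContinuousAt f x) →
        (∀ y, (f ⁻¹' {y}).Countable) → 𝔠 ≤ #(range (fun x => f x + x)) →
        ∃ x, x ∉ J ∧ x ∉ H ∧ f x ∈ H)
    (u : Sp H → Sp H) (hu : Continuous u) (hinj : Injective u) : Surjective u := by
  classical
  let φ : Sp H → BG := fun p => pr (u p)
  have hφ : Continuous φ := continuous_pr.comp hu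
  let J : Set BG := {x : BG | φ (lft H x 0) ≠ φ (lft H x 1)}
  have hJ : J.Countable := countable_jump φ hφ
  have hlft : ∀ x, x ∉ H → lft H x 0 ≠ lft H x 1 := fun x hx h => by
    have := lft_coord hx 0
    rw [h, lft_coord hx] at this
    exact one_ne_zero this
  let ψ : Sp H → BG := fun p => φ p + pr p
  have hψ : Continuous ψ := hφ.add continuous_pr
  have hRc : IsClosed (range ψ) := (isCompact_range hψ).isClosed
  have hR : (range ψ).Countable := by
    by_contra hcon
    obtain ⟨e, he, -, heinj⟩ := hRc.exists_nat_bool_injection_of_not_countable hcon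
    have h1 : 𝔠 ≤ #(range ψ) := by
      refine le_trans ?_ (mk_le_mk_of_subset he)
      rw [mk_range_eq e heinj]
      simp
    have h2 : 𝔠 ≤ #(range (fun x => φ (lft H x 0) + x)) := by
      by_contra hlt
      push Not at hlt
      have h3 : range ψ ⊆ range (fun x => φ (lft H x 0) + x) ∪ (fun x => φ (lft H x 1) + x) '' J := by
        rintro _ ⟨p, rfl⟩
        rcases eq_lft_cases p with h | h
        · exact Or.inl ⟨pr p, by simp only [ψ]; rw [← h]⟩
        · by_cases hj : pr p ∈ J
          · exact Or.inr ⟨pr p, hj, by simp only [ψ]; rw [← h]⟩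
          · have h4 : φ (lft H (pr p) 0) = φ (lft H (pr p) 1) := not_not.1 hj
            exact Or.inl ⟨pr p, by simp only [ψ]; rw [h4, ← h]⟩
      have h5 : #((fun x => φ (lft H x 1) + x) '' J) < 𝔠 :=
        lt_of_le_of_lt (le_aleph0_iff_set_countable.2 (hJ.image _)) aleph0_lt_continuum
      exact absurd (lt_of_le_of_lt (h1.trans ((mk_le_mk_of_subset h3).trans (mk_union_le _ _)))
        (add_lt_of_lt aleph0_le_continuum hlt h5)) (lt_irrefl _)
    obtain ⟨x, hxJ, hxH, hfx⟩ := hkill (fun x => φ (lft H x 0)) J hJ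
      (fun x hx => continuousAt_of_not_jump φ hφ (not_not.1 hx))
      (fun y => by
        have h6 : ((fun x => u (lft H x 0)) ⁻¹' {lft H y 0, lft H y 1}).Countable := by
          refine (Set.toFinite _).countable.preimage ?_
          intro a b hab
          exact congrArg pr (hinj hab)
        refine h6.mono fun x hx => ?_
        have h7 : pr (u (lft H x 0)) = y := hx
        have := eq_lft_cases (u (lft H x 0))
        rw [h7] at this
        exact this) h2
    have h8 : φ (lft H x 0) = φ (lft H x 1) := not_not.1 hxJ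
    exact hlft x hxH (hinj (Sp_ext h8 fun h => absurd hfx h))
  -- the measure argument
  let μ : Measure BG := Measure.addHaar
  let E : BG → Set BG := fun r => pr '' (ψ ⁻¹' {r})
  let F : BG → Set BG := fun r => φ '' (ψ ⁻¹' {r})
  have hcomp : ∀ r, IsCompact (ψ ⁻¹' {r}) := fun r =>
    (isClosed_singleton.preimage hψ).isCompact
  have hFc : ∀ r, IsClosed (F r) := fun r => ((hcomp r).image hφ).isClosed
  have hφψ : ∀ p, φ p = pr p + ψ p := fun p => by
    simp only [ψ]
    rw [add_comm (φ p), ← add_assoc, BG_add_self, zero_add]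
  have hEF : ∀ r, E r = (fun x => x + r) ⁻¹' F r := by
    intro r
    ext x
    constructor
    · rintro ⟨p, hp, rfl⟩
      exact ⟨p, hp, by rw [hφψ, show ψ p = r from hp]⟩
    · rintro ⟨p, hp, hpx⟩
      refine ⟨p, hp, ?_⟩
      rw [hφψ, show ψ p = r from hp] at hpx
      exact add_right_cancel hpx
  have hμEF : ∀ r, μ (E r) = μ (F r) := fun r => by
    rw [hEF, measure_preimage_add_right]
  have hdisj : ∀ r s, r ≠ s → μ (F r ∩ F s) = 0 := by
    intro r s hrs
    rw [← measure_preimage_add_right μ r]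
    set C := (fun x => x + r) ⁻¹' (F r ∩ F s) with hC
    have hCm : MeasurableSet C :=
      (((hFc r).inter (hFc s)).preimage (continuous_add_const r)).measurableSet
    have hsub : C \ J ⊆ H := by
      rintro x ⟨⟨⟨p, hp, hpx⟩, ⟨q, hq, hqx⟩⟩, hxJ⟩
      by_contra hxH
      have hp1 : pr p = x := by
        rw [hφψ, show ψ p = r from hp] at hpx
        exact add_right_cancel hpx
      have hq1 : pr q ≠ x := fun h => by
        rw [hφψ, show ψ q = s from hq, h] at hqx
        exact hrs (add_left_cancel hqx).symm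
      have h8 : φ (lft H x 0) = φ (lft H x 1) := not_not.1 hxJ
      have h9 : φ (lft H x 0) = x + r := by
        rcases eq_lft_cases p with h | h
        · rw [← hp1, ← h, hp1]; exact hpx
        · rw [h8, ← hp1, ← h, hp1]; exact hpx
      have ha := eq_lft_cases (u (lft H x 0))
      have hb := eq_lft_cases (u (lft H x 1))
      have hc := eq_lft_cases (u q)
      have ha' : pr (u (lft H x 0)) = x + r := h9
      have hb' : pr (u (lft H x 1)) = x + r := h8.symm.trans h9
      have hc' : pr (u q) = x + r := hqx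
      rw [ha'] at ha
      rw [hb'] at hb
      rw [hc'] at hc
      have n1 : u (lft H x 0) ≠ u (lft H x 1) := fun h => hlft x hxH (hinj h)
      have n2 : u (lft H x 0) ≠ u q := fun h => hq1 (congrArg pr (hinj h)).symm
      have n3 : u (lft H x 1) ≠ u q := fun h => hq1 (congrArg pr (hinj h)).symm
      rcases ha with ha | ha <;> rcases hb with hb | hb <;> rcases hc with hc | hc
      all_goals first
        | exact n1 (ha.trans hb.symm)
        | exact n2 (ha.trans hc.symm)
        | exact n3 (hb.trans hc.symm)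
    have h0 : μ (C \ J) = 0 := by
      by_contra hpos
      exact hne (eq_top_of_pos hE μ (hCm.diff hJ.measurableSet) hsub (pos_iff_ne_zero.2 hpos))
    rwa [measure_sdiff_null (hJ.measure_zero μ)] at h0
  have hcount : Countable (range ψ) := hR.to_subtype
  have hge : μ Set.univ ≤ μ (range φ) := by
    have h1 : (Set.univ : Set BG) ⊆ ⋃ r : range ψ, E r := fun x _ =>
      mem_iUnion.2 ⟨⟨ψ (lft H x 0), _, rfl⟩, lft H x 0, rfl, rfl⟩
    have h2 : (⋃ r : range ψ, F r) ⊆ range φ := iUnion_subset fun r => image_subset_range _ _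
    calc μ Set.univ ≤ μ (⋃ r : range ψ, E r) := measure_mono h1
      _ ≤ ∑' r : range ψ, μ (E r) := measure_iUnion_le _
      _ = ∑' r : range ψ, μ (F r) := by simp only [hμEF]
      _ = μ (⋃ r : range ψ, F r) := by
        refine (measure_iUnion₀ (f := fun r : range ψ => F r) ?_
          fun r => (hFc r).measurableSet.nullMeasurableSet).symm
        intro r s hrs
        exact hdisj r s fun h => hrs (Subtype.ext h)
      _ ≤ μ (range φ) := measure_mono h2
  have hφc : IsClosed (range φ) := (isCompact_range hφ).isClosed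
  have hφs : Surjective φ := by
    have h1 : μ (range φ)ᶜ = 0 := by
      rw [measure_compl hφc.measurableSet (measure_ne_top _ _)]
      exact tsub_eq_zero_of_le hge
    have h2 := (hφc.isOpen_compl.measure_eq_zero_iff μ).1 h1
    rw [compl_empty_iff] at h2
    exact range_eq_univ.1 h2
  intro p
  by_contra hp
  have hO : IsOpen (range u)ᶜ := (isCompact_range hu).isClosed.isOpen_compl
  obtain ⟨z, hz, hzO⟩ := exists_lft_mem hE hO (p := p) hp
  obtain ⟨q, hq⟩ := hφs z
  exact hzO ⟨q, Sp_ext hq fun h => absurd (show φ q ∈ H from hq ▸ hz) h⟩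

theorem exists_counterexample :
    ∃ (H : AddSubgroup BG), (∀ x y : Sp H, ∃ h : Sp H ≃ₜ Sp H, h x = y) ∧
      ∀ u : Sp H → Sp H, Continuous u → Injective u → Surjective u := by
  obtain ⟨H, hE, hne, hkill⟩ := exists_good_subgroup
  exact ⟨H, homogeneous_Sp hE, coHopf hE hne hkill⟩

end Pool.Agent.MP_a8721e_gt

end
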